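import Mathlib

/-! A compact subset of `ℝ³` whose Vietoris-Rips shadow is not an ANR. -/

namespace Pool.Agent.Results.MP_68dc86_gt.NotANR

open Set Topology Filter

/-- the shadow of the Vietoris-Rips complex `R_β(M)` -/
def Sh {N : ℕ} (M : Set (EuclideanSpace ℝ (Fin N))) (β : ℝ) : Set (EuclideanSpace ℝ (Fin N)) :=
  ⋃ σ ∈ {σ : Finset (EuclideanSpace ℝ (Fin N)) |
    σ.Nonempty ∧ (σ : Set _) ⊆ M ∧ Metric.diam (σ : Set (EuclideanSpace ℝ (Fin N))) < β},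
    convexHull ℝ (σ : Set (EuclideanSpace ℝ (Fin N)))

/-- absolute neighbourhood retracts -/
def IsANR (Y : Type) [TopologicalSpace Y] : Prop :=
  TopologicalSpace.MetrizableSpace Y ∧
    ∀ (Z : Type) [TopologicalSpace Z] [TopologicalSpace.MetrizableSpace Z] (e : Y → Z),
      IsClosedEmbedding e → ∃ U ∈ 𝓝ˢ (range e), ∃ r : U → Y, Continuous r ∧
        ∀ y (h : e y ∈ U), r ⟨e y, h⟩ = y

abbrev E := EuclideanSpace ℝ (Fin 3)

def K : Set ℝ := insert 0 (range fun n : ℕ => (1 / 2 : ℝ) ^ n)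

theorem K_compact : IsCompact K :=
  (tendsto_pow_atTop_nhds_zero_of_lt_one (by norm_num) (by norm_num)).isCompact_insert_range

theorem K_mem {y : ℝ} (h : y ∈ K) : 0 ≤ y ∧ y ≤ 1 := by
  rcases h with rfl | ⟨n, rfl⟩
  · norm_num
  · exact ⟨by positivity, pow_le_one₀ (by norm_num) (by norm_num)⟩

theorem K_tri {s t : ℝ} (hs : s ∈ K) (ht : t ∈ K) : s = t ∨ 2 * s ≤ t ∨ 2 * t ≤ s := by
  have key : ∀ m n : ℕ, m < n → 2 * (1 / 2 : ℝ) ^ n ≤ (1 / 2) ^ m := fun m n h => by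
    have := pow_le_pow_of_le_one (a := (1 / 2 : ℝ)) (by norm_num) (by norm_num)
      (Nat.succ_le_of_lt h)
    rw [pow_succ] at this
    linarith
  rcases hs with rfl | ⟨n, rfl⟩
  · exact Or.inr (Or.inl (by simpa using (K_mem ht).1))
  rcases ht with rfl | ⟨m, rfl⟩
  · exact Or.inr (Or.inr (by simp))
  rcases lt_trichotomy m n with h | rfl | h
  · exact Or.inr (Or.inl (key _ _ h))
  · exact Or.inl rfl
  · exact Or.inr (Or.inr (key _ _ h))

noncomputable def a1 : E := !₂[0, -1, 0]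
noncomputable def a2 : E := !₂[0, 18, 0]
noncomputable def c1 (y : ℝ) : E := !₂[-(10 - y ^ 2 / 200), 0, y]
noncomputable def c2 (y : ℝ) : E := !₂[10 - y ^ 2 / 200, 0, y]
noncomputable def L (t : ℝ) : E := !₂[0, 0, t]

def M : Set E := {a1, a2} ∪ (c1 '' K ∪ c2 '' K)

theorem M_compact : IsCompact M := by
  refine (toFinite _).isCompact.union ((K_compact.image ?_).union (K_compact.image ?_))
  · unfold c1; fun_prop
  · unfold c2; fun_prop

theorem dist_lt (u v : E) :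
    dist u v < 20 ↔ (u 0 - v 0) ^ 2 + (u 1 - v 1) ^ 2 + (u 2 - v 2) ^ 2 < 400 := by
  rw [EuclideanSpace.dist_eq, Real.sqrt_lt' (by norm_num), Fin.sum_univ_three]
  simp only [Real.dist_eq, sq_abs]
  norm_num

theorem hull_le {σ : Set E} (a b c d : ℝ) (h : ∀ v ∈ σ, a * v 0 + b * v 1 + c * v 2 ≤ d) {p : E}
    (hp : p ∈ convexHull ℝ σ) : a * p 0 + b * p 1 + c * p 2 ≤ d := by
  refine convexHull_min (t := {v : E | a * v 0 + b * v 1 + c * v 2 ≤ d}) h ?_ hp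
  intro x hx y hy s t hs ht hst
  have h1 := mul_le_mul_of_nonneg_left (show _ ≤ d from hx) hs
  have h2 := mul_le_mul_of_nonneg_left (show _ ≤ d from hy) ht
  have h3 : s * d + t * d = d := by rw [← add_mul, hst, one_mul]
  show a * (s * x 0 + t * y 0) + b * (s * x 1 + t * y 1) + c * (s * x 2 + t * y 2) ≤ d
  linarith

def Wd : Set E := {p | -5 < p 0 + 10 * p 1 ∧ -5 < -p 0 + 10 * p 1}

theorem Wd_open : IsOpen Wd :=
  (isOpen_lt (g := fun p : E => p 0 + 10 * p 1) continuous_const (by fun_prop)).inter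
    (isOpen_lt (g := fun p : E => -p 0 + 10 * p 1) continuous_const (by fun_prop))

noncomputable def g (p : E) : ℝ := p 2 / max (1 + p 1) (1 / 2)

theorem g_cont : Continuous g :=
  Continuous.div (by fun_prop) (by fun_prop) fun p =>
    (lt_of_lt_of_le (by norm_num) (le_max_right _ _)).ne'

theorem g_L (t : ℝ) : g (L t) = t := by
  simp [g, L]; norm_num

theorem L_W (t : ℝ) : L t ∈ Wd := by
  simp [Wd, L]

theorem key {p : E} (hp : p ∈ Sh M 20) (hW : p ∈ Wd) : g p ∈ K := by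
  obtain ⟨σ, ⟨-, hM, hd⟩, hp⟩ := mem_iUnion₂.1 hp
  have hd' : ∀ u ∈ σ, ∀ v ∈ σ, (u 0 - v 0) ^ 2 + (u 1 - v 1) ^ 2 + (u 2 - v 2) ^ 2 < 400 :=
    fun u hu v hv => (dist_lt u v).1
      ((Metric.dist_le_diam_of_mem σ.finite_toSet.isBounded hu hv).trans_lt hd)
  obtain ⟨w1, w2⟩ := hW
  suffices ∃ y ∈ K, ∀ v ∈ σ, v 2 - y * v 1 = y by
    obtain ⟨y, hy, h⟩ := this
    have h1 := hull_le 0 (-y) 1 y (fun v hv => by linarith [h v hv]) hp
    have h2 := hull_le 0 y (-1) (-y) (fun v hv => by linarith [h v hv]) hp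
    have h3 : g p = y := by
      rw [g, max_eq_left (by linarith), div_eq_iff (by linarith)]
      linarith
    rwa [h3]
  by_cases h2 : a2 ∈ σ
  · refine ⟨0, Or.inl rfl, fun v hv => ?_⟩
    have := hd' _ hv _ h2
    rcases hM hv with (rfl | rfl) | ⟨y, hy, rfl⟩ | ⟨y, hy, rfl⟩
    · simp [a1]
    · simp [a2]
    · obtain ⟨k1, k2⟩ := K_mem hy
      simp [c1, a2] at this
      nlinarith [sq_nonneg (y ^ 2)]
    · obtain ⟨k1, k2⟩ := K_mem hy
      simp [c2, a2] at this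
      nlinarith [sq_nonneg (y ^ 2)]
  by_cases h3 : ∃ t ∈ K, c2 t ∈ σ
  swap
  · have := hull_le 1 10 0 (-9) (fun v hv => by
      rcases hM hv with (rfl | rfl) | ⟨y, hy, rfl⟩ | ⟨y, hy, rfl⟩
      · simp [a1]; norm_num
      · exact absurd hv h2
      · obtain ⟨k1, k2⟩ := K_mem hy
        simp [c1]; nlinarith
      · exact absurd ⟨y, hy, hv⟩ h3) hp
    linarith
  by_cases h4 : ∃ s ∈ K, c1 s ∈ σ
  swap
  · have := hull_le (-1) 10 0 (-9) (fun v hv => by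
      rcases hM hv with (rfl | rfl) | ⟨y, hy, rfl⟩ | ⟨y, hy, rfl⟩
      · simp [a1]; norm_num
      · exact absurd hv h2
      · exact absurd ⟨y, hy, hv⟩ h4
      · obtain ⟨k1, k2⟩ := K_mem hy
        simp [c2]; nlinarith) hp
    linarith
  have hF : ∀ s ∈ K, ∀ t ∈ K, c1 s ∈ σ → c2 t ∈ σ → s = t := fun s hs t ht k1 k2 => by
    have := hd' _ k2 _ k1
    simp [c1, c2] at this
    have hs0 := (K_mem hs).1
    have ht0 := (K_mem ht).1
    rcases K_tri hs ht with h | h | h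
    · exact h
    · nlinarith [sq_nonneg (t ^ 2 + s ^ 2), mul_nonneg hs0 ht0]
    · nlinarith [sq_nonneg (t ^ 2 + s ^ 2), mul_nonneg hs0 ht0]
  obtain ⟨t, ht, k2⟩ := h3
  obtain ⟨s, hs, k1⟩ := h4
  refine ⟨t, ht, fun v hv => ?_⟩
  rcases hM hv with (rfl | rfl) | ⟨y, hy, rfl⟩ | ⟨y, hy, rfl⟩
  · simp [a1]
  · exact absurd hv h2
  · simp [c1, hF y hy t ht hv k2]
  · simp [c2, ← hF s hs y hy k1 hv, hF s hs t ht k1 k2]

theorem seg_sub {u v : E} (hu : u ∈ M) (hv : v ∈ M) (h : dist u v < 20) :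
    segment ℝ u v ⊆ Sh M 20 := by
  classical
  intro p hp
  refine mem_iUnion₂.2 ⟨{u, v}, ⟨by simp, ?_, ?_⟩, ?_⟩
  · simp [insert_subset_iff, hu, hv]
  · simpa [Metric.diam_pair] using h
  · simpa [convexHull_pair] using hp

theorem L_mem {t : ℝ} (ht : t ∈ K) : L t ∈ Sh M 20 := by
  rcases (K_mem ht).1.eq_or_lt with rfl | h0
  · refine seg_sub (u := a1) (v := a2) (Or.inl (Or.inl rfl)) (Or.inl (Or.inr rfl)) ?_
      ⟨18 / 19, 1 / 19, by norm_num, by norm_num, by norm_num, ?_⟩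
    · rw [dist_lt]; simp [a1, a2]; norm_num
    · ext i; fin_cases i <;> simp [a1, a2, L]; norm_num
  · refine seg_sub (u := c1 t) (v := c2 t) (Or.inr (Or.inl ⟨t, ht, rfl⟩))
      (Or.inr (Or.inr ⟨t, ht, rfl⟩)) ?_ ⟨1 / 2, 1 / 2, by norm_num, by norm_num, by norm_num, ?_⟩
    · have := (K_mem ht).2
      have h1 : 0 < t ^ 2 := by positivity
      have h2 : t ^ 2 ≤ 1 := by nlinarith
      rw [dist_lt]; simp [c1, c2]; nlinarith
    · ext i; fin_cases i <;> simp [c1, c2, L] <;> ring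

theorem result : ∃ (N : ℕ) (M : Set (EuclideanSpace ℝ (Fin N))) (β : ℝ),
    1 ≤ N ∧ M.Nonempty ∧ IsCompact M ∧ 0 < β ∧ ¬ IsANR (Sh M β) := by
  classical
  refine ⟨3, M, 20, by norm_num, ⟨a1, Or.inl (Or.inl rfl)⟩, M_compact, by norm_num, ?_⟩
  rintro ⟨-, h⟩
  have hcl : IsClosed {x : ↥(Sh M 20 ∪ range L) | x.1 ∈ Sh M 20} := by
    have : {x : ↥(Sh M 20 ∪ range L) | x.1 ∈ Sh M 20} = (Subtype.val ⁻¹' (Wd ∩ g ⁻¹' Kᶜ))ᶜ := by
      ext ⟨x, hx⟩
      refine ⟨fun h1 h2 => h2.2 (key h1 h2.1), fun h1 => ?_⟩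
      rcases hx with hx | ⟨t, rfl⟩
      · exact hx
      · by_contra h2
        exact h1 ⟨L_W t, fun h3 => h2 (L_mem (by rwa [g_L] at h3))⟩
    rw [this]
    exact ((Wd_open.inter (K_compact.isClosed.isOpen_compl.preimage g_cont)).preimage
      continuous_subtype_val).isClosed_compl
  obtain ⟨U, hU, r, hr, hrU⟩ := h _ _ (IsClosedEmbedding.inclusion subset_union_left hcl)
  let γ : ℝ → ↥(Sh M 20 ∪ range L) := fun t => ⟨L t, Or.inr ⟨t, rfl⟩⟩
  have hγ : Continuous γ := Continuous.subtype_mk (by unfold L; fun_prop) _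
  let R : ℝ → E := fun t => if h : γ t ∈ U then (r ⟨γ t, h⟩).1 else 0
  have hR : ContinuousOn R (γ ⁻¹' U) := by
    rw [continuousOn_iff_continuous_domRestrict]
    have : (γ ⁻¹' U).domRestrict R = fun t => (r ⟨γ t.1, t.2⟩).1 := funext fun t => dif_pos t.2
    rw [this]
    exact continuous_subtype_val.comp (hr.comp ((hγ.comp continuous_subtype_val).subtype_mk _))
  have hK : ∀ t ∈ K, γ t ∈ U → R t = L t := fun t ht h => by
    simp only [R, dif_pos h]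
    exact congrArg Subtype.val (hrU ⟨L t, L_mem ht⟩ h)
  have h0 : γ ⁻¹' U ∈ 𝓝 (0 : ℝ) := hγ.continuousAt.preimage_mem_nhds
    (mem_nhdsSet_iff_forall.1 hU _ ⟨⟨L 0, L_mem (Or.inl rfl)⟩, rfl⟩)
  have h1 : R ⁻¹' Wd ∈ 𝓝 (0 : ℝ) := (hR.continuousAt h0).preimage_mem_nhds (by
    rw [hK 0 (Or.inl rfl) (mem_of_mem_nhds h0 :)]
    exact Wd_open.mem_nhds (L_W 0))
  obtain ⟨δ, hδ, hb⟩ := Metric.mem_nhds_iff.1 (inter_mem h0 h1)
  obtain ⟨n, hn⟩ := exists_pow_lt_of_lt_one hδ (show (1 / 2 : ℝ) < 1 by norm_num)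
  have hy : (1 / 2 : ℝ) ^ n ∈ K := Or.inr ⟨n, rfl⟩
  have hy0 : (0 : ℝ) < (1 / 2) ^ n := by positivity
  generalize (1 / 2 : ℝ) ^ n = y at hn hy hy0
  have hsub : Icc 0 y ⊆ γ ⁻¹' U ∩ R ⁻¹' Wd := fun t ht => hb (by
    rw [mem_ball_zero_iff, Real.norm_eq_abs, abs_of_nonneg ht.1]; exact ht.2.trans_lt hn)
  obtain ⟨t, ht, h3⟩ := intermediate_value_Icc hy0.le
    (g_cont.comp_continuousOn (hR.mono fun t ht => (hsub ht).1)) (show 3 / 4 * y ∈ _ by
      simp only [Function.comp]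
      rw [hK 0 (Or.inl rfl) (mem_of_mem_nhds h0 :), hK y hy (hsub ⟨hy0.le, le_rfl⟩).1, g_L, g_L]
      constructor <;> linarith)
  have h4 : g (R t) ∈ K := key (by
    simp only [R, dif_pos (show γ t ∈ U from (hsub ht).1)]
    exact (r _).2) (hsub ht).2
  rw [show g (R t) = 3 / 4 * y from h3] at h4
  rcases K_tri h4 hy with h | h | h <;> linarith

end Pool.Agent.Results.MP_68dc86_gt.NotANR
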